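import Pool.Agent.H77.KG.Targets

set_option autoImplicit false

namespace Pool.Agent.H36.KGR

open Set Matrix Pool.Agent.H77.BC Pool.Agent.H77.BD Pool.Agent.H77.KG

section psln

variable {F : Type} [Field F] {n : ℕ}

/-- the special linear group -/
private abbrev SLn (n : ℕ) (F : Type) [Field F] : Type :=
  Matrix.SpecialLinearGroup (Fin (n + 1)) F

private theorem vm (A B : SLn n F) : (A * B).val = A.val * B.val := rfl

/-- row transvections -/
private def tr (ψ : Fin n → F) : SLn n F :=
  ⟨1 + vecMulVec (Pi.single 0 1) (Fin.cons 0 ψ : Fin (n + 1) → F), by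
    rw [vecMulVec_eq Unit, det_one_add_replicateCol_mul_replicateRow, dotProduct_single,
      Fin.cons_zero, zero_mul, add_zero]⟩

private theorem tr_val (ψ : Fin n → F) : (tr ψ).val =
    1 + vecMulVec (Pi.single 0 1) (Fin.cons 0 ψ : Fin (n + 1) → F) := rfl

private theorem tr00 (ψ : Fin n → F) : (tr ψ).val 0 0 = 1 := by
  rw [tr_val, Matrix.add_apply, vecMulVec_apply, one_apply_eq, Fin.cons_zero, mul_zero, add_zero]

private theorem tr0s (ψ : Fin n → F) (j : Fin n) : (tr ψ).val 0 j.succ = ψ j := by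
  rw [tr_val, Matrix.add_apply, vecMulVec_apply, one_apply_ne (Fin.succ_ne_zero j).symm,
    Fin.cons_succ, Pi.single_eq_same, one_mul, zero_add]

private theorem trs (ψ : Fin n → F) (i : Fin n) (j : Fin (n + 1)) :
    (tr ψ).val i.succ j = (1 : Matrix (Fin (n + 1)) (Fin (n + 1)) F) i.succ j := by
  rw [tr_val, Matrix.add_apply, vecMulVec_apply, Pi.single_eq_of_ne (Fin.succ_ne_zero i), zero_mul,
    add_zero]

private theorem mul_tr0 (A : SLn n F) (ψ : Fin n → F) (i : Fin (n + 1)) :
    (A * tr ψ).val i 0 = A.val i 0 := by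
  rw [vm, tr_val, mul_add, mul_one, mul_vecMulVec, Matrix.add_apply, vecMulVec_apply, Fin.cons_zero,
    mul_zero, add_zero]

private theorem mul_trs (A : SLn n F) (ψ : Fin n → F) (i : Fin (n + 1)) (j : Fin n) :
    (A * tr ψ).val i j.succ = A.val i j.succ + A.val i 0 * ψ j := by
  rw [vm, tr_val, mul_add, mul_one, mul_vecMulVec, Matrix.add_apply, vecMulVec_apply, Fin.cons_succ,
    mulVec_single_one]
  rfl

private theorem trs_mul (A : SLn n F) (ψ : Fin n → F) (i : Fin n) (j : Fin (n + 1)) :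
    (tr ψ * A).val i.succ j = A.val i.succ j := by
  rw [vm, tr_val, add_mul, one_mul, vecMulVec_mul, Matrix.add_apply, vecMulVec_apply,
    Pi.single_eq_of_ne (Fin.succ_ne_zero i), zero_mul, add_zero]

private theorem tr0_mul (A : SLn n F) (ψ : Fin n → F) (j : Fin (n + 1)) :
    (tr ψ * A).val 0 j = A.val 0 j + ∑ k, ψ k * A.val k.succ j := by
  rw [vm, tr_val, add_mul, one_mul, vecMulVec_mul, Matrix.add_apply, vecMulVec_apply,
    Pi.single_eq_same, one_mul]
  congr 1
  change ∑ k, (Fin.cons 0 ψ : Fin (n + 1) → F) k * A.val k j = _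
  rw [Fin.sum_univ_succ, Fin.cons_zero, zero_mul, zero_add]
  rfl

private theorem tr_add (ψ χ : Fin n → F) : tr (ψ + χ) = tr ψ * tr χ := by
  apply Subtype.ext
  ext i j
  refine Fin.cases ?_ (fun i => ?_) i
  · refine Fin.cases ?_ (fun j => ?_) j
    · rw [mul_tr0, tr00, tr00]
    · rw [mul_trs, tr0s, tr0s, tr00, one_mul, Pi.add_apply]
  · rw [trs_mul, trs, trs]

private theorem tr_zero : tr (0 : Fin n → F) = 1 := by
  apply Subtype.ext
  ext i j
  refine Fin.cases ?_ (fun i => ?_) i
  · refine Fin.cases ?_ (fun j => ?_) j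
    · rw [tr00]
      exact (one_apply_eq (0 : Fin (n + 1))).symm
    · rw [tr0s]
      exact (one_apply_ne (Fin.succ_ne_zero j).symm).symm
  · rw [trs]
    rfl

/-- diagonal matrices -/
private def dn : Fˣ →* SLn n F where
  toFun a := ⟨diagonal (Fin.cons ((a : F) ^ n) (fun _ => ((a⁻¹ : Fˣ) : F)) : Fin (n + 1) → F), by
    rw [det_diagonal, Fin.prod_univ_succ]
    simp⟩
  map_one' := by
    apply Subtype.ext
    ext i j
    refine Fin.cases ?_ (fun i => ?_) i <;> refine Fin.cases ?_ (fun j => ?_) j <;>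
      simp [diagonal_apply, one_apply]
  map_mul' a c := by
    apply Subtype.ext
    change diagonal (Fin.cons (((a * c : Fˣ) : F) ^ n) (fun _ => (((a * c)⁻¹ : Fˣ) : F)) :
      Fin (n + 1) → F) = diagonal (Fin.cons ((a : F) ^ n) (fun _ => ((a⁻¹ : Fˣ) : F)) :
      Fin (n + 1) → F) * diagonal (Fin.cons ((c : F) ^ n) (fun _ => ((c⁻¹ : Fˣ) : F)) :
      Fin (n + 1) → F)
    rw [diagonal_mul_diagonal]
    congr 1
    ext i
    refine Fin.cases ?_ (fun i => ?_) i
    · simp [mul_pow]
    · simp [mul_comm]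

private theorem dn_val (a : Fˣ) : (dn a : SLn n F).val =
    diagonal (Fin.cons ((a : F) ^ n) (fun _ => ((a⁻¹ : Fˣ) : F)) : Fin (n + 1) → F) := rfl

private theorem dn_tr (a : Fˣ) (ψ : Fin n → F) :
    dn a * tr ψ = tr (((a : F) ^ (n + 1)) • ψ) * dn a := by
  apply Subtype.ext
  ext i j
  rw [vm, vm, dn_val, diagonal_mul, mul_diagonal]
  refine Fin.cases ?_ (fun i => ?_) i
  · refine Fin.cases ?_ (fun j => ?_) j
    · rw [tr00, tr00, mul_one, one_mul]
    · rw [tr0s, tr0s, Fin.cons_zero, Fin.cons_succ, Pi.smul_apply, smul_eq_mul, pow_succ]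
      have h : (a : F) * ((a⁻¹ : Fˣ) : F) = 1 := by simp
      linear_combination -(a : F) ^ n * ψ j * h
  · rw [trs, trs]
    refine Fin.cases ?_ (fun j => ?_) j
    · rw [one_apply_ne (Fin.succ_ne_zero i), mul_zero, zero_mul]
    · rw [Fin.cons_succ, Fin.cons_succ, mul_comm]

/-- infinitely many elements avoid finitely many roots of unity -/
private theorem ex_unit [Infinite F] (m : ℕ) (hm : 0 < m) : ∃ a : Fˣ, (a : F) ^ m ≠ 1 := by
  classical
  obtain ⟨a, ha⟩ := Infinite.exists_notMem_finset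
    (insert 0 (Polynomial.nthRoots m (1 : F)).toFinset)
  rw [Finset.mem_insert, not_or, Multiset.mem_toFinset, Polynomial.mem_nthRoots hm] at ha
  exact ⟨Units.mk0 a ha.1, ha.2⟩

private theorem al1_core {G S : Type} [Group G] [MulAction G S] [IsAlgClosed F] (hn : 1 ≤ n)
    (π : SLn n F →* G) (hs : Function.Surjective π)
    (hk : ∀ A B : SLn n F, π A = π B ↔ ∃ ε : F, B.val = ε • A.val)
    (b : S ≃ Projectivization F (Fin (n + 1) → F))
    (hb : ∀ (A : SLn n F) (x : S) (v : Fin (n + 1) → F) (hv : v ≠ 0) (hw : A.val *ᵥ v ≠ 0),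
      b x = Projectivization.mk F v hv → b (π A • x) = Projectivization.mk F (A.val *ᵥ v) hw) :
    ∃ (s : S) (U1 : Subgroup G),
    (∀ g, g ∈ U1 ↔ ∀ u ∈ U1, g * u = u * g) ∧ Spl U1 ∧ (U1 : Set G).Infinite ∧
    ∀ s' : S, s' ≠ s → (MulAction.stabilizer G s').relIndex U1 = 0 := by
  classical
  have hinf : Infinite F := IsAlgClosed.instInfinite
  have he : (Pi.single 0 1 : Fin (n + 1) → F) ≠ 0 := by
    intro h
    have := congrFun h 0
    rw [Pi.single_eq_same] at this
    exact one_ne_zero this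
  let s : S := b.symm (Projectivization.mk F (Pi.single 0 1) he)
  let U1 : Subgroup G :=
    { carrier := {g | ∃ ψ : Fin n → F, g = π (tr ψ)}
      one_mem' := ⟨0, by rw [tr_zero, map_one]⟩
      mul_mem' := by
        rintro _ _ ⟨ψ, rfl⟩ ⟨χ, rfl⟩
        exact ⟨ψ + χ, by rw [tr_add, map_mul]⟩
      inv_mem' := by
        rintro _ ⟨ψ, rfl⟩
        refine ⟨-ψ, ?_⟩
        rw [← map_inv]
        congr 1
        rw [inv_eq_iff_mul_eq_one, ← tr_add, add_neg_cancel, tr_zero] }
  have hmem : ∀ g, g ∈ U1 ↔ ∃ ψ : Fin n → F, g = π (tr ψ) := fun g => Iff.rfl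
  have hinj : ∀ ψ χ : Fin n → F, π (tr ψ) = π (tr χ) → ψ = χ := by
    intro ψ χ h
    obtain ⟨ε, hε⟩ := (hk _ _).1 h
    have h0 := congrFun (congrFun hε 0) 0
    rw [Matrix.smul_apply, tr00, tr00, smul_eq_mul, mul_one] at h0
    ext j
    have h1 := congrFun (congrFun hε 0) j.succ
    rw [Matrix.smul_apply, tr0s, tr0s, smul_eq_mul, ← h0, one_mul] at h1
    exact h1.symm
  refine ⟨s, U1, fun g => ⟨?_, ?_⟩, ?_, ?_, ?_⟩
  · intro hg u hu
    obtain ⟨ψ, rfl⟩ := (hmem g).1 hg
    obtain ⟨χ, rfl⟩ := (hmem u).1 hu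
    rw [← map_mul, ← map_mul, ← tr_add, ← tr_add, add_comm ψ χ]
  · intro hg
    obtain ⟨A, rfl⟩ := hs g
    have hcom : ∀ ψ : Fin n → F, (tr ψ * A).val = (A * tr ψ).val := by
      intro ψ
      have h1 := hg (π (tr ψ)) ((hmem _).2 ⟨ψ, rfl⟩)
      rw [← map_mul, ← map_mul] at h1
      obtain ⟨ε, hε⟩ := (hk _ _).1 h1
      have hε1 : ε = 1 := by
        by_contra hne
        have hz : ∀ i : Fin n, A.val i.succ 0 = 0 := by
          intro i
          have h2 := congrFun (congrFun hε i.succ) 0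
          rw [Matrix.smul_apply, mul_tr0, trs_mul, smul_eq_mul] at h2
          have h3 : (ε - 1) * A.val i.succ 0 = 0 := by linear_combination -h2
          exact (mul_eq_zero.1 h3).resolve_left (sub_ne_zero.2 hne)
        have hz2 : ∀ (i : Fin n) (j : Fin (n + 1)), A.val i.succ j = 0 := by
          intro i j
          refine Fin.cases (hz i) (fun j => ?_) j
          have h2 := congrFun (congrFun hε i.succ) j.succ
          rw [Matrix.smul_apply, mul_trs, trs_mul, smul_eq_mul, hz i, zero_mul, add_zero] at h2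
          have h3 : (ε - 1) * A.val i.succ j.succ = 0 := by linear_combination -h2
          exact (mul_eq_zero.1 h3).resolve_left (sub_ne_zero.2 hne)
        have hdet := A.2
        rw [det_eq_zero_of_row_eq_zero (Fin.succ ⟨0, hn⟩) (fun j => hz2 ⟨0, hn⟩ j)] at hdet
        exact zero_ne_one hdet
      rw [hε, hε1, one_smul]
    have hz : ∀ i : Fin n, A.val i.succ 0 = 0 := by
      intro i
      have h1 := congrFun (congrFun (hcom (Pi.single ⟨0, hn⟩ 1)) i.succ) (Fin.succ ⟨0, hn⟩)
      rw [mul_trs, trs_mul, Pi.single_eq_same, mul_one] at h1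
      linear_combination -h1
    have hd : ∀ (k : Fin n) (j : Fin n), A.val k.succ j.succ =
        if k = j then A.val 0 0 else 0 := by
      intro k j
      have h1 := congrFun (congrFun (hcom (Pi.single k 1)) 0) j.succ
      rw [mul_trs, tr0_mul, Finset.sum_eq_single k (fun m _ hm => by
        rw [Pi.single_eq_of_ne hm, zero_mul]) (fun hk => absurd (Finset.mem_univ k) hk),
        Pi.single_eq_same, one_mul] at h1
      have h2 : A.val k.succ j.succ = A.val 0 0 * (Pi.single k 1 : Fin n → F) j := by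
        linear_combination h1
      rw [h2, Pi.single_apply]
      by_cases hkj : k = j
      · rw [if_pos hkj, if_pos hkj.symm, mul_one]
      · rw [if_neg hkj, if_neg (Ne.symm hkj), mul_zero]
    have ha : A.val 0 0 ≠ 0 := by
      intro h0
      have hdet := A.2
      rw [det_eq_zero_of_column_eq_zero 0 (fun i => ?_)] at hdet
      · exact zero_ne_one hdet
      · exact Fin.cases h0 hz i
    refine (hmem _).2 ⟨fun j => A.val 0 j.succ / A.val 0 0, ?_⟩
    refine ((hk _ _).2 ⟨A.val 0 0, ?_⟩).symm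
    ext i j
    rw [Matrix.smul_apply, smul_eq_mul]
    refine Fin.cases ?_ (fun i => ?_) i
    · refine Fin.cases ?_ (fun j => ?_) j
      · rw [tr00, mul_one]
      · rw [tr0s]
        field_simp
    · rw [trs]
      refine Fin.cases ?_ (fun j => ?_) j
      · rw [hz, one_apply_ne (Fin.succ_ne_zero i), mul_zero]
      · rw [hd, one_apply]
        by_cases hij : i = j
        · rw [if_pos hij, if_pos (congrArg _ hij), mul_one]
        · rw [if_neg hij, if_neg (fun h => hij (Fin.succ_injective _ h)), mul_zero]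
  · intro k hk1
    obtain ⟨a, ha⟩ := ex_unit (F := F) ((n + 1) * k) (by positivity)
    have hconj : ∀ (c : Fˣ) (ψ : Fin n → F), π (dn c) * π (tr ψ) * (π (dn c))⁻¹ =
        π (tr (((c : F) ^ (n + 1)) • ψ)) := by
      intro c ψ
      rw [mul_inv_eq_iff_eq_mul, ← map_mul, ← map_mul, dn_tr]
    refine ⟨π (dn a), fun u => ⟨fun hu => ?_, fun hu => ?_⟩, fun u hu hcomm => ?_⟩
    · obtain ⟨ψ, rfl⟩ := (hmem u).1 hu
      exact (hmem _).2 ⟨_, hconj a ψ⟩
    · obtain ⟨ψ, hψ⟩ := (hmem _).1 hu
      have h1 : u = (π (dn a))⁻¹ * π (tr ψ) * π (dn a) := by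
        rw [← hψ]
        group
      have h2 := hconj a⁻¹ ψ
      rw [map_inv, map_inv, inv_inv] at h2
      rw [h1]
      exact (hmem _).2 ⟨_, h2⟩
    · obtain ⟨ψ, rfl⟩ := (hmem u).1 hu
      rw [← map_pow, ← map_pow] at hcomm
      have h1 := hconj (a ^ k) ψ
      rw [hcomm, mul_inv_cancel_right] at h1
      have h2 := hinj _ _ h1
      have h3 : ψ = 0 := by
        ext j
        have h4 := congrFun h2 j
        rw [Pi.smul_apply, smul_eq_mul, Units.val_pow_eq_pow_val, ← pow_mul, mul_comm k] at h4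
        have h5 : (1 - (a : F) ^ ((n + 1) * k)) * ψ j = 0 := by linear_combination h4
        exact (mul_eq_zero.1 h5).resolve_left (sub_ne_zero.2 (Ne.symm ha))
      rw [h3, tr_zero, map_one]
  · have h1 : Function.Injective (fun t : F => π (tr (Pi.single ⟨0, hn⟩ t))) := by
      intro t t' h
      have h2 := congrFun (hinj _ _ h) ⟨0, hn⟩
      rw [Pi.single_eq_same, Pi.single_eq_same] at h2
      exact h2
    refine (Set.infinite_range_of_injective h1).mono ?_
    rintro _ ⟨t, rfl⟩
    exact (hmem _).2 ⟨_, rfl⟩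
  · intro s' hs'
    obtain ⟨v, hv, hbv⟩ : ∃ (v : Fin (n + 1) → F) (hv : v ≠ 0),
        b s' = Projectivization.mk F v hv :=
      ⟨(b s').rep, (b s').rep_nonzero, (Projectivization.mk_rep _).symm⟩
    have hj : ∃ j : Fin n, v j.succ ≠ 0 := by
      by_contra hcon
      push Not at hcon
      apply hs'
      apply b.injective
      change b s' = b (b.symm _)
      rw [b.apply_symm_apply, hbv, Projectivization.mk_eq_mk_iff']
      refine ⟨v 0, ?_⟩
      ext i
      rw [Pi.smul_apply, smul_eq_mul]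
      refine Fin.cases ?_ (fun i => ?_) i
      · rw [Pi.single_eq_same, mul_one]
      · rw [Pi.single_eq_of_ne (Fin.succ_ne_zero i), mul_zero, hcon i]
    obtain ⟨j, hj⟩ := hj
    change ((MulAction.stabilizer G s').subgroupOf U1).index = 0
    rw [Subgroup.index_eq_zero_iff_infinite]
    let f : F → U1 ⧸ (MulAction.stabilizer G s').subgroupOf U1 := fun t =>
      QuotientGroup.mk (⟨π (tr (Pi.single j t)), (hmem _).2 ⟨_, rfl⟩⟩ : U1)
    refine Infinite.of_injective f ?_
    intro t t' htt
    have h1 := QuotientGroup.eq.1 htt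
    rw [Subgroup.mem_subgroupOf, MulAction.mem_stabilizer_iff] at h1
    have h2 : (π (tr (Pi.single j t)))⁻¹ * π (tr (Pi.single j t')) =
        π (tr (Pi.single j (t' - t))) := by
      rw [inv_mul_eq_iff_eq_mul, ← map_mul, ← tr_add, ← Pi.single_add, add_sub_cancel]
    have h3 : π (tr (Pi.single j (t' - t))) • s' = s' := by
      rw [← h2]
      exact h1
    have hval : (tr (Pi.single j (t' - t))).val *ᵥ v =
        v + Pi.single 0 ((t' - t) * v j.succ) := by
      rw [tr_val, add_mulVec, one_mulVec]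
      congr 1
      ext i
      rw [vecMulVec_mulVec]
      have h4 : (Fin.cons 0 (Pi.single j (t' - t)) : Fin (n + 1) → F) ⬝ᵥ v =
          (t' - t) * v j.succ := by
        change ∑ k, (Fin.cons 0 (Pi.single j (t' - t)) : Fin (n + 1) → F) k * v k = _
        rw [Fin.sum_univ_succ, Fin.cons_zero, zero_mul, zero_add,
          Finset.sum_eq_single j (fun m _ hm => by
            rw [Fin.cons_succ, Pi.single_eq_of_ne hm, zero_mul])
          (fun hk => absurd (Finset.mem_univ j) hk), Fin.cons_succ, Pi.single_eq_same]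
      rw [h4]
      refine Fin.cases ?_ (fun i => ?_) i
      · simp
      · simp
    have hj2 : ((tr (Pi.single j (t' - t))).val *ᵥ v) j.succ = v j.succ := by
      rw [hval, Pi.add_apply, Pi.single_eq_of_ne (Fin.succ_ne_zero j), add_zero]
    have hw : (tr (Pi.single j (t' - t))).val *ᵥ v ≠ 0 := by
      intro h0
      rw [h0] at hj2
      exact hj hj2.symm
    have h5 := hb _ s' v hv hw hbv
    rw [h3, hbv, Projectivization.mk_eq_mk_iff'] at h5
    obtain ⟨c, hc⟩ := h5
    have h6 := congrFun hc j.succ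
    rw [Pi.smul_apply, smul_eq_mul, hj2] at h6
    have h7 : c = 1 := by
      have h8 : (c - 1) * v j.succ = 0 := by linear_combination h6
      exact sub_eq_zero.1 ((mul_eq_zero.1 h8).resolve_right hj)
    rw [h7, one_smul, hval] at hc
    have h8 := congrFun hc 0
    rw [Pi.add_apply, Pi.single_eq_same] at h8
    have h9 : (t' - t) * v j.succ = 0 := by linear_combination h8
    exact (sub_eq_zero.1 ((mul_eq_zero.1 h9).resolve_right hj)).symm

end psln

theorem pf_AL1 : T_AL1 := by
  classical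
  rintro G S F _ _ _ _ n hn ⟨φ, b, hb⟩
  refine al1_core (F := F) hn (φ.symm.toMonoidHom.comp (QuotientGroup.mk' _))
    (φ.symm.surjective.comp (QuotientGroup.mk'_surjective _)) (fun A B => ⟨fun hAB => ?_,
    fun hAB => ?_⟩) b (fun A x v hv hw hx => ?_)
  · have h1 : (QuotientGroup.mk' (Subgroup.center (SLn n F))) A =
        (QuotientGroup.mk' _) B := φ.symm.injective hAB
    have h2 : A⁻¹ * B ∈ Subgroup.center (SLn n F) := QuotientGroup.eq.1 h1
    rw [Matrix.SpecialLinearGroup.mem_center_iff] at h2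
    obtain ⟨r, -, h3⟩ := h2
    have h4 : B = A * (A⁻¹ * B) := by rw [mul_inv_cancel_left]
    refine ⟨r, ?_⟩
    have h5 : B.val = A.val * (A⁻¹ * B).val := by
      rw [← vm, ← h4]
    have h6 : (A⁻¹ * B).val = scalar (Fin (n + 1)) r := h3.symm
    ext i j
    rw [h5, h6, scalar_apply, mul_diagonal, mul_comm]
    rfl
  · obtain ⟨r, hr⟩ := hAB
    change φ.symm ((QuotientGroup.mk' _) A) = φ.symm ((QuotientGroup.mk' _) B)
    congr 1
    apply QuotientGroup.eq.2
    rw [Matrix.SpecialLinearGroup.mem_center_iff]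
    refine ⟨r, ?_, ?_⟩
    · have h1 := congrArg det hr
      rw [det_smul] at h1
      have h2 : det B.val = 1 := B.2
      have h3 : det A.val = 1 := A.2
      rw [h2, h3, mul_one] at h1
      exact h1.symm
    · have h1 : (A⁻¹ * B).val = (A⁻¹).val * B.val := rfl
      have h2 : (A⁻¹).val * A.val = 1 := by
        rw [← vm, inv_mul_cancel]
        rfl
      change scalar (Fin (n + 1)) r = (A⁻¹ * B).val
      rw [h1, hr, mul_smul_comm, h2]
      ext i j
      rw [scalar_apply, Matrix.smul_apply, diagonal_apply, one_apply]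
      by_cases hij : i = j
      · rw [if_pos hij, if_pos hij, smul_eq_mul, mul_one]
      · rw [if_neg hij, if_neg hij, smul_zero]
  · refine hb _ A ?_ x v hv hw hx
    change φ (φ.symm ((QuotientGroup.mk' _) A)) = _
    rw [φ.apply_symm_apply]
    rfl

end Pool.Agent.H36.KGR
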