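import Pool.Agent.H77.KG.Targets

set_option autoImplicit false

namespace Pool.Agent.H36.KGR

open Set Matrix Pool.Agent.H77.BC Pool.Agent.H77.BD Pool.Agent.H77.KG

section psl2

variable {F : Type} [Field F]

private theorem vmul {n : ℕ} (A B : SpecialLinearGroup (Fin n) F) :
    (A * B).val = A.val * B.val := rfl

private theorem ent (A B : SpecialLinearGroup (Fin 2) F) (i j : Fin 2) :
    (A * B).val i j = A.val i 0 * B.val 0 j + A.val i 1 * B.val 1 j := by
  rw [vmul, mul_apply, Fin.sum_univ_two]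

private theorem ext4 {A B : SpecialLinearGroup (Fin 2) F} (h1 : A.val 0 0 = B.val 0 0)
    (h2 : A.val 0 1 = B.val 0 1) (h3 : A.val 1 0 = B.val 1 0) (h4 : A.val 1 1 = B.val 1 1) :
    A = B := by
  apply Subtype.ext
  ext i j
  fin_cases i <;> fin_cases j
  · exact h1
  · exact h2
  · exact h3
  · exact h4

/-- upper unitriangular matrices -/
private def uu (t : F) : SpecialLinearGroup (Fin 2) F :=
  ⟨!![1, t; 0, 1], by rw [det_fin_two_of]; ring⟩

/-- lower unitriangular matrices -/
private def lw (t : F) : SpecialLinearGroup (Fin 2) F :=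
  ⟨!![1, 0; t, 1], by rw [det_fin_two_of]; ring⟩

private theorem uu_add (s t : F) : uu (s + t) = uu s * uu t := by
  apply Subtype.ext
  change !![1, s + t; 0, 1] = !![1, s; 0, 1] * !![1, t; 0, 1]
  rw [mul_fin_two]
  ext i j
  fin_cases i <;> fin_cases j <;> simp [add_comm]

private theorem uu_zero : uu (0 : F) = 1 := by
  apply Subtype.ext
  ext i j
  fin_cases i <;> fin_cases j <;> simp [uu]

/-- diagonal matrices -/
private def dgh : Fˣ →* SpecialLinearGroup (Fin 2) F where
  toFun a := ⟨!![(a : F), 0; 0, ((a⁻¹ : Fˣ) : F)], by rw [det_fin_two_of]; simp⟩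
  map_one' := by
    apply Subtype.ext
    ext i j
    fin_cases i <;> fin_cases j <;> simp
  map_mul' a b := by
    apply Subtype.ext
    change !![((a * b : Fˣ) : F), 0; 0, (((a * b)⁻¹ : Fˣ) : F)] =
      !![(a : F), 0; 0, ((a⁻¹ : Fˣ) : F)] * !![(b : F), 0; 0, ((b⁻¹ : Fˣ) : F)]
    rw [mul_fin_two]
    ext i j
    fin_cases i <;> fin_cases j <;> simp [mul_comm]

private theorem dgh_uu (a : Fˣ) (t : F) :
    dgh a * uu t = uu ((a : F) * a * t) * dgh a := by
  apply Subtype.ext
  change !![(a : F), 0; 0, ((a⁻¹ : Fˣ) : F)] * !![1, t; 0, 1] =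
    !![1, (a : F) * a * t; 0, 1] * !![(a : F), 0; 0, ((a⁻¹ : Fˣ) : F)]
  rw [mul_fin_two, mul_fin_two]
  have h : (a : F) * ((a⁻¹ : Fˣ) : F) = 1 := by simp
  ext i j
  fin_cases i <;> fin_cases j
  · simp
  · change (a : F) * t + 0 * 1 = 1 * 0 + (a : F) * a * t * ((a⁻¹ : Fˣ) : F)
    linear_combination -(a : F) * t * h
  · simp
  · simp

open scoped Classical in
private theorem al2_core {L : Type} [Group L] [IsAlgClosed F]
    (π : SpecialLinearGroup (Fin 2) F →* L) (hs : Function.Surjective π)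
    (hk : ∀ A B, π A = π B → ∃ ε : F, ε * ε = 1 ∧ ∀ i j, B.val i j = ε * A.val i j)
    (hz : ∀ A ∈ Subgroup.center (SpecialLinearGroup (Fin 2) F), π A = 1) :
    ∃ U1 : Subgroup L,
    (∀ g, g ∈ U1 ↔ ∀ u ∈ U1, g * u = u * g) ∧
    (∀ k : ℕ, 1 ≤ k → ∃ d : L, (∀ u, u ∈ U1 ↔ d * u * d⁻¹ ∈ U1) ∧
      ∀ u ∈ U1, d ^ k * u = u * d ^ k → u = 1) ∧ (U1 : Set L).Infinite ∧
    (∀ u ∈ U1, u ≠ 1 → ∀ v ∈ U1, v ≠ 1 → ∃ d : L, (∀ w, w ∈ U1 ↔ d * w * d⁻¹ ∈ U1) ∧
      d * u * d⁻¹ = v) ∧
    (∀ h : L, (¬ ∀ w, w ∈ U1 ↔ h * w * h⁻¹ ∈ U1) → ∀ Y : Subgroup L, U1 ≤ Y →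
      (∀ w ∈ U1, h * w * h⁻¹ ∈ Y) → Y = ⊤) ∧
    ∃ h : L, ¬ ∀ w, w ∈ U1 ↔ h * w * h⁻¹ ∈ U1 := by
  have hinf : Infinite F := IsAlgClosed.instInfinite
  let U1 : Subgroup L :=
    { carrier := {g | ∃ t : F, g = π (uu t)}
      one_mem' := ⟨0, by rw [uu_zero, map_one]⟩
      mul_mem' := by
        rintro _ _ ⟨s, rfl⟩ ⟨t, rfl⟩
        exact ⟨s + t, by rw [uu_add, map_mul]⟩
      inv_mem' := by
        rintro _ ⟨t, rfl⟩
        refine ⟨-t, ?_⟩
        rw [← map_inv]
        congr 1
        apply inv_eq_of_mul_eq_one_left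
        rw [← uu_add, neg_add_cancel, uu_zero] }
  have hmem : ∀ g, g ∈ U1 ↔ ∃ t : F, g = π (uu t) := fun g => Iff.rfl
  have hinj : ∀ s t : F, π (uu s) = π (uu t) → s = t := by
    intro s t h
    obtain ⟨ε, -, h2⟩ := hk _ _ h
    have h3 := h2 0 0
    have h4 := h2 0 1
    simp only [uu, of_apply, cons_val', cons_val_zero, cons_val_one, cons_val_fin_one] at h3 h4
    rw [mul_one] at h3
    rw [h4, ← h3, one_mul]
  -- the diagonal matrices normalize
  have hnorm : ∀ a : Fˣ, ∀ w, w ∈ U1 ↔ π (dgh a) * w * (π (dgh a))⁻¹ ∈ U1 := by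
    have h1 : ∀ (a : Fˣ) (w : L), w ∈ U1 → π (dgh a) * w * (π (dgh a))⁻¹ ∈ U1 := by
      rintro a _ ⟨t, rfl⟩
      refine ⟨(a : F) * a * t, ?_⟩
      rw [mul_inv_eq_iff_eq_mul, ← map_mul, ← map_mul, dgh_uu]
    intro a w
    refine ⟨h1 a w, fun h => ?_⟩
    have h2 := h1 a⁻¹ _ h
    rw [map_inv, map_inv, inv_inv] at h2
    have h3 : (π (dgh a))⁻¹ * (π (dgh a) * w * (π (dgh a))⁻¹) * π (dgh a) = w := by group
    rwa [h3] at h2
  refine ⟨U1, ?_, ?_, ?_, ?_, ?_, ?_⟩
  · intro g
    constructor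
    · rintro ⟨s, rfl⟩ _ ⟨t, rfl⟩
      rw [← map_mul, ← map_mul, ← uu_add, ← uu_add, add_comm]
    · intro hg
      obtain ⟨A, rfl⟩ := hs g
      have h1 := hg (π (uu 1)) ⟨1, rfl⟩
      rw [← map_mul, ← map_mul] at h1
      obtain ⟨ε, hε, h2⟩ := hk _ _ h1
      have hA := A.2
      rw [det_fin_two] at hA
      have e00 := h2 0 0
      have e01 := h2 0 1
      have e10 := h2 1 0
      rw [ent, ent] at e00 e01 e10
      set p := A.val 0 0
      set q := A.val 0 1
      set r := A.val 1 0
      set s := A.val 1 1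
      change 1 * p + 1 * r = ε * (p * 1 + q * 0) at e00
      change 1 * q + 1 * s = ε * (p * 1 + q * 1) at e01
      change 0 * p + 1 * r = ε * (r * 1 + s * 0) at e10
      have hr : r = 0 := by
        by_contra hr0
        have hε1 : ε = 1 := by
          have h3 : r * (1 - ε) = 0 := by linear_combination e10
          rcases mul_eq_zero.1 h3 with h4 | h4
          · exact absurd h4 hr0
          · exact (sub_eq_zero.1 h4).symm
        rw [hε1] at e00
        apply hr0
        linear_combination e00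
      rw [hr] at e00 hA
      have hp : p ≠ 0 := by
        rintro hp
        rw [hp] at hA
        simp at hA
      have hε1 : ε = 1 := by
        have h3 : p * (1 - ε) = 0 := by linear_combination e00
        rcases mul_eq_zero.1 h3 with h4 | h4
        · exact absurd h4 hp
        · exact (sub_eq_zero.1 h4).symm
      rw [hε1] at e01
      have hps : s = p := by linear_combination e01
      have hpp : p * p = 1 := by
        rw [hps] at hA
        linear_combination hA
      refine ⟨q * p, ?_⟩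
      have h5 : A * (uu (q * p))⁻¹ ∈ Subgroup.center (SpecialLinearGroup (Fin 2) F) := by
        rw [Matrix.SpecialLinearGroup.mem_center_iff]
        refine ⟨p, by simpa [sq] using hpp, ?_⟩
        have h6 : (uu (q * p))⁻¹ = uu (-(q * p)) := by
          apply inv_eq_of_mul_eq_one_left
          rw [← uu_add, neg_add_cancel, uu_zero]
        rw [h6]
        ext i j
        have h7 := ent A (uu (-(q * p))) i j
        refine Eq.trans ?_ h7.symm
        fin_cases i <;> fin_cases j
        · change p = p * 1 + q * 0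
          ring
        · change (0 : F) = p * (-(q * p)) + q * 1
          linear_combination q * hpp
        · change (0 : F) = r * 1 + s * 0
          rw [hr]
          ring
        · change p = r * (-(q * p)) + s * 1
          rw [hr, hps]
          ring
      have h7 := hz _ h5
      rw [map_mul, map_inv, mul_inv_eq_one] at h7
      exact h7
  · intro k hk1
    obtain ⟨a, ha⟩ := Infinite.exists_notMem_finset
      ((Polynomial.nthRoots (2 * k) (1 : F)).toFinset ∪ {0})
    rw [Finset.mem_union, Multiset.mem_toFinset, Polynomial.mem_nthRoots (by omega),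
      Finset.mem_singleton, not_or] at ha
    obtain ⟨ha1, ha0⟩ := ha
    refine ⟨π (dgh (Units.mk0 a ha0)), hnorm _, ?_⟩
    rintro _ ⟨t, rfl⟩ hcom
    rw [← map_pow, ← map_pow, ← map_mul, ← map_mul] at hcom
    obtain ⟨ε, -, h2⟩ := hk _ _ hcom
    set b : Fˣ := Units.mk0 a ha0 ^ k with hb
    have hbb : (b : F) * ((b⁻¹ : Fˣ) : F) = 1 := by simp
    have e00 := h2 0 0
    have e01 := h2 0 1
    have e00' : (b : F) = ε * b := by
      have h3 : (uu t * dgh b).val 0 0 = b := by
        rw [ent]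
        change 1 * (b : F) + t * 0 = b
        ring
      have h4 : (dgh b * uu t).val 0 0 = b := by
        rw [ent]
        change (b : F) * 1 + 0 * 0 = b
        ring
      rw [h3, h4] at e00
      exact e00
    have e01' : t * ((b⁻¹ : Fˣ) : F) = ε * (b * t) := by
      have h3 : (uu t * dgh b).val 0 1 = t * ((b⁻¹ : Fˣ) : F) := by
        rw [ent]
        change 1 * 0 + t * ((b⁻¹ : Fˣ) : F) = t * ((b⁻¹ : Fˣ) : F)
        ring
      have h4 : (dgh b * uu t).val 0 1 = b * t := by
        rw [ent]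
        change (b : F) * t + 0 * 1 = b * t
        ring
      rw [h3, h4] at e01
      exact e01
    have hε : ε = 1 := by
      have h3 : (b : F) * (1 - ε) = 0 := by linear_combination e00'
      rcases mul_eq_zero.1 h3 with h4 | h4
      · exact absurd h4 b.ne_zero
      · exact (sub_eq_zero.1 h4).symm
    rw [hε, one_mul] at e01'
    have hb2 : (b : F) * b = a ^ (2 * k) := by
      rw [hb, Units.val_pow_eq_pow_val, Units.val_mk0, ← pow_add, two_mul]
    have h5 : (a ^ (2 * k) - 1) * t = 0 := by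
      rw [← hb2]
      linear_combination -(b : F) * e01' + t * hbb
    rcases mul_eq_zero.1 h5 with h6 | h6
    · exact absurd (sub_eq_zero.1 h6) ha1
    · rw [h6, uu_zero, map_one]
  · exact Set.infinite_of_injective_forall_mem (f := fun t : F => π (uu t))
      (fun s t h => hinj s t h) (fun t => ⟨t, rfl⟩)
  · rintro _ ⟨t, rfl⟩ ht _ ⟨t', rfl⟩ ht'
    have ht0 : t ≠ 0 := by
      rintro rfl
      exact ht (by rw [uu_zero, map_one])
    have ht0' : t' ≠ 0 := by
      rintro rfl
      exact ht' (by rw [uu_zero, map_one])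
    obtain ⟨a, ha⟩ := IsAlgClosed.exists_pow_nat_eq (t' / t) (n := 2) (by norm_num)
    have ha0 : a ≠ 0 := by
      rintro rfl
      rw [zero_pow two_ne_zero] at ha
      exact div_ne_zero ht0' ht0 ha.symm
    refine ⟨π (dgh (Units.mk0 a ha0)), hnorm _, ?_⟩
    rw [mul_inv_eq_iff_eq_mul, ← map_mul, ← map_mul, dgh_uu, Units.val_mk0, ← sq, ha,
      div_mul_cancel₀ _ ht0]
  · intro h hh Y hY1 hY2
    obtain ⟨A, rfl⟩ := hs h
    have hA := A.2
    rw [det_fin_two] at hA
    have htri : ∀ (B : SpecialLinearGroup (Fin 2) F), B.val 1 0 = 0 → ∀ w ∈ U1,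
        π B * w * (π B)⁻¹ ∈ U1 := by
      rintro B hB _ ⟨t, rfl⟩
      have hB2 := B.2
      rw [det_fin_two, hB, mul_zero, sub_zero] at hB2
      refine ⟨B.val 0 0 * B.val 0 0 * t, ?_⟩
      rw [mul_inv_eq_iff_eq_mul, ← map_mul, ← map_mul]
      congr 1
      apply ext4
      · rw [ent, ent]
        change B.val 0 0 * 1 + B.val 0 1 * 0 =
          1 * B.val 0 0 + B.val 0 0 * B.val 0 0 * t * B.val 1 0
        rw [hB]
        ring
      · rw [ent, ent]
        change B.val 0 0 * t + B.val 0 1 * 1 =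
          1 * B.val 0 1 + B.val 0 0 * B.val 0 0 * t * B.val 1 1
        linear_combination -(B.val 0 0) * t * hB2
      · rw [ent, ent]
        change B.val 1 0 * 1 + B.val 1 1 * 0 = 0 * B.val 0 0 + 1 * B.val 1 0
        ring
      · rw [ent, ent]
        change B.val 1 0 * t + B.val 1 1 * 1 = 0 * B.val 0 1 + 1 * B.val 1 1
        rw [hB]
        ring
    have hr : A.val 1 0 ≠ 0 := by
      intro hr
      apply hh
      intro w
      refine ⟨htri A hr w, fun h => ?_⟩
      have h1 : (A⁻¹).val 1 0 = 0 := by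
        rw [SpecialLinearGroup.SL2_inv_expl]
        simp [hr]
      have h2 := htri A⁻¹ h1 _ h
      rw [map_inv, inv_inv] at h2
      have h3 : (π A)⁻¹ * (π A * w * (π A)⁻¹) * π A = w := by group
      rwa [h3] at h2
    have hu : ∀ t : F, π (uu t) ∈ Y := fun t => hY1 ⟨t, rfl⟩
    have hl : ∀ x : F, π (lw x) ∈ Y := by
      intro x
      have h1 := hY2 (π (uu (-x / (A.val 1 0 * A.val 1 0)))) ⟨_, rfl⟩
      have h2 := mul_mem (mul_mem (hu (-(A.val 0 0 / A.val 1 0))) h1)
        (inv_mem (hu (-(A.val 0 0 / A.val 1 0))))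
      have h3 : π (uu (-(A.val 0 0 / A.val 1 0))) *
          (π A * π (uu (-x / (A.val 1 0 * A.val 1 0))) * (π A)⁻¹) *
          (π (uu (-(A.val 0 0 / A.val 1 0))))⁻¹ = π (lw x) := by
        rw [← map_inv, ← map_inv, ← map_mul, ← map_mul, ← map_mul, ← map_mul]
        congr 1
        rw [mul_inv_eq_iff_eq_mul, ← mul_assoc, mul_inv_eq_iff_eq_mul, ← mul_assoc]
        apply ext4
        · rw [ent, ent, ent, ent, ent, ent]
          change (1 * A.val 0 0 + -(A.val 0 0 / A.val 1 0) * A.val 1 0) * 1 +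
              (1 * A.val 0 1 + -(A.val 0 0 / A.val 1 0) * A.val 1 1) * 0 =
            (1 * 1 + 0 * 0) * A.val 0 0 + (1 * -(A.val 0 0 / A.val 1 0) + 0 * 1) * A.val 1 0
          ring
        · rw [ent, ent, ent, ent, ent, ent]
          change (1 * A.val 0 0 + -(A.val 0 0 / A.val 1 0) * A.val 1 0) *
                (-x / (A.val 1 0 * A.val 1 0)) +
              (1 * A.val 0 1 + -(A.val 0 0 / A.val 1 0) * A.val 1 1) * 1 =
            (1 * 1 + 0 * 0) * A.val 0 1 + (1 * -(A.val 0 0 / A.val 1 0) + 0 * 1) * A.val 1 1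
          field_simp
          ring
        · rw [ent, ent, ent, ent, ent, ent]
          change (0 * A.val 0 0 + 1 * A.val 1 0) * 1 + (0 * A.val 0 1 + 1 * A.val 1 1) * 0 =
            (x * 1 + 1 * 0) * A.val 0 0 + (x * -(A.val 0 0 / A.val 1 0) + 1 * 1) * A.val 1 0
          field_simp
          ring
        · rw [ent, ent, ent, ent, ent, ent]
          change (0 * A.val 0 0 + 1 * A.val 1 0) * (-x / (A.val 1 0 * A.val 1 0)) +
              (0 * A.val 0 1 + 1 * A.val 1 1) * 1 =
            (x * 1 + 1 * 0) * A.val 0 1 + (x * -(A.val 0 0 / A.val 1 0) + 1 * 1) * A.val 1 1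
          field_simp
          linear_combination (A.val 1 0) * x * hA
      rwa [h3] at h2
    have hc : ∀ B : SpecialLinearGroup (Fin 2) F, B.val 1 0 ≠ 0 → π B ∈ Y := by
      intro B hB
      have hB2 := B.2
      rw [det_fin_two] at hB2
      have h3 : B = uu ((B.val 0 0 - 1) / B.val 1 0) * lw (B.val 1 0) *
          uu ((B.val 1 1 - 1) / B.val 1 0) := by
        apply ext4
        · rw [ent, ent, ent]
          change B.val 0 0 = (1 * 1 + (B.val 0 0 - 1) / B.val 1 0 * B.val 1 0) * 1 +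
            (1 * 0 + (B.val 0 0 - 1) / B.val 1 0 * 1) * 0
          field_simp
          ring
        · rw [ent, ent, ent]
          change B.val 0 1 = (1 * 1 + (B.val 0 0 - 1) / B.val 1 0 * B.val 1 0) *
              ((B.val 1 1 - 1) / B.val 1 0) + (1 * 0 + (B.val 0 0 - 1) / B.val 1 0 * 1) * 1
          field_simp
          linear_combination -hB2
        · rw [ent, ent, ent]
          change B.val 1 0 = (0 * 1 + 1 * B.val 1 0) * 1 + (0 * 0 + 1 * 1) * 0
          ring
        · rw [ent, ent, ent]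
          change B.val 1 1 = (0 * 1 + 1 * B.val 1 0) * ((B.val 1 1 - 1) / B.val 1 0) +
            (0 * 0 + 1 * 1) * 1
          field_simp
          ring
      rw [h3, map_mul, map_mul]
      exact mul_mem (mul_mem (hu _) (hl _)) (hu _)
    rw [eq_top_iff]
    intro g _
    obtain ⟨B, rfl⟩ := hs g
    by_cases hB : B.val 1 0 = 0
    · have hB2 := B.2
      rw [det_fin_two, hB, mul_zero, sub_zero] at hB2
      have hd : B.val 1 1 ≠ 0 := by
        intro h0
        rw [h0, mul_zero] at hB2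
        exact zero_ne_one hB2
      have h1 : (B * lw 1).val 1 0 ≠ 0 := by
        rw [ent]
        change B.val 1 0 * 1 + B.val 1 1 * 1 ≠ 0
        rw [hB, zero_mul, zero_add, mul_one]
        exact hd
      have h2 := hc _ h1
      rw [map_mul] at h2
      exact (Subgroup.mul_mem_cancel_right Y (hl 1)).1 h2
    · exact hc B hB
  · let w0 : SpecialLinearGroup (Fin 2) F := ⟨!![0, 1; -1, 0], by rw [det_fin_two_of]; ring⟩
    refine ⟨π w0, fun hall => ?_⟩
    obtain ⟨t, ht⟩ := (hall (π (uu 1))).1 ⟨1, rfl⟩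
    rw [mul_inv_eq_iff_eq_mul, ← map_mul, ← map_mul] at ht
    obtain ⟨ε, hε, h2⟩ := hk _ _ ht
    have h3 := h2 1 1
    have h4 : (uu t * w0).val 1 1 = 0 := by
      rw [ent]
      change (0 : F) * 1 + 1 * 0 = 0
      ring
    have h5 : (w0 * uu 1).val 1 1 = -1 := by
      rw [ent]
      change (-1 : F) * 1 + 0 * 1 = -1
      ring
    rw [h4, h5] at h3
    have h6 : ε = 0 := by linear_combination h3
    rw [h6, mul_zero] at hε
    exact zero_ne_one hε

end psl2

theorem pf_AL2 : T_AL2 := by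
  classical
  rintro L _ ⟨F, _, _, ⟨φ⟩⟩
  have h := al2_core (F := F) (φ.symm.toMonoidHom.comp (QuotientGroup.mk' _))
    (φ.symm.surjective.comp (QuotientGroup.mk'_surjective _)) (fun A B hAB => ?_)
    (fun A hA => ?_)
  · exact h
  · have h1 : (QuotientGroup.mk' (Subgroup.center (SpecialLinearGroup (Fin 2) F))) A =
        (QuotientGroup.mk' _) B := φ.symm.injective hAB
    have h2 : A⁻¹ * B ∈ Subgroup.center (SpecialLinearGroup (Fin 2) F) :=
      QuotientGroup.eq.1 h1
    rw [Matrix.SpecialLinearGroup.mem_center_iff] at h2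
    obtain ⟨r, hr, h3⟩ := h2
    have h4 : B = A * (A⁻¹ * B) := by rw [mul_inv_cancel_left]
    refine ⟨r, ?_, fun i j => ?_⟩
    · rw [Fintype.card_fin] at hr
      rw [← sq]
      exact hr
    · have h5 : B.val = A.val * (A⁻¹ * B).val := by
        rw [← vmul, ← h4]
      rw [h5]
      have h6 : (A⁻¹ * B).val = scalar (Fin 2) r := h3.symm
      rw [h6, scalar_apply, mul_diagonal, mul_comm]
  · have h1 : (QuotientGroup.mk' (Subgroup.center (SpecialLinearGroup (Fin 2) F))) A = 1 :=
      (QuotientGroup.eq_one_iff A).2 hA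
    change φ.symm ((QuotientGroup.mk' _) A) = 1
    rw [h1, map_one]

end Pool.Agent.H36.KGR
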