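import Pool.Agent.H77.KG.Targets

set_option autoImplicit false

namespace Pool.Agent.H36.KGR

open Set Pool.Agent.H77.BC Pool.Agent.H77.BD Pool.Agent.H77.KG

private theorem sq_sum {I : Type} (s : Finset I) (c : I → ℕ) :
    ∑ k ∈ s, c k * c k ≤ (∑ k ∈ s, c k) * (∑ k ∈ s, c k) := by
  classical
  induction s using Finset.induction_on with
  | empty => simp
  | insert a s ha ih =>
    rw [Finset.sum_insert ha, Finset.sum_insert ha]
    nlinarith [Nat.zero_le (c a), Nat.zero_le (∑ k ∈ s, c k), ih,
      Nat.zero_le (c a * ∑ k ∈ s, c k)]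

private theorem sq_aux (x y : ℕ) (hx : 1 ≤ x) (hy : 1 ≤ y) :
    x * x + y * y + 2 * (x + y) ≤ (x + y) * (x + y) + 2 := by
  obtain ⟨a, rfl⟩ : ∃ a, x = a + 1 := ⟨x - 1, by omega⟩
  obtain ⟨b, rfl⟩ : ∃ b, y = b + 1 := ⟨y - 1, by omega⟩
  have h := Nat.zero_le (a * b)
  nlinarith [h]

theorem pf_ARI : T_ARI := by
  classical
  intro I _ c r Q n hn hc hr hs hN
  have hr' : ∀ i, r i ≤ c i * (c i + 2) := by
    intro i
    rcases hr i with h | ⟨m, f, -, hf, h1, h2⟩
    · nlinarith [h]
    · rw [h2, mul_comm]
      apply Nat.mul_le_mul_left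
      have : m + 1 ≤ c i := by
        rw [h1]
        exact Nat.le_mul_of_pos_right _ hf
      omega
  rcases isEmpty_or_nonempty I with hI | ⟨⟨i⟩⟩
  · rw [Finset.univ_eq_empty, Finset.sum_empty] at hN
    nlinarith
  by_cases huniq : ∀ k, k = i
  · left
    have huniv : (Finset.univ : Finset I) = {i} := by
      ext k
      simp [huniq k]
    rw [huniv, Finset.sum_singleton] at hs hN
    refine ⟨i, huniq, ?_⟩
    have hci := hc i
    rcases hr i with h | ⟨m, f, hQ, hf, h1, h2⟩
    · exfalso
      have : c i * (c i + 1) ≤ n * (n + 1) := Nat.mul_le_mul hs (by omega)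
      omega
    · have h3 : c i * (c i + 1) ≤ c i * (m + 3) := by
        calc c i * (c i + 1) ≤ n * (n + 1) := Nat.mul_le_mul hs (by omega)
          _ ≤ r i := hN
          _ = c i * (m + 3) := by rw [h2, mul_comm]
      have h4 : c i + 1 ≤ m + 3 := Nat.le_of_mul_le_mul_left h3 hci
      rcases Nat.lt_or_ge f 2 with hf2 | hf2
      · have hf1 : f = 1 := by omega
        subst hf1
        rw [mul_one] at h1
        have h5 : n = m + 1 := by
          by_contra hne
          have h6 : m + 2 ≤ n := by omega
          have h7 : (m + 2) * (m + 3) ≤ n * (n + 1) := Nat.mul_le_mul h6 (by omega)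
          rw [h2, h1] at hN
          nlinarith
        refine ⟨by omega, Or.inl ⟨m, hQ, h5.symm, ?_⟩⟩
        rw [h2, h1, h5]
        ring
      · have h5 : (m + 1) * 2 ≤ (m + 1) * f := Nat.mul_le_mul_left _ hf2
        have hm : m = 0 := by omega
        subst hm
        have hf3 : f = 2 := by omega
        subst hf3
        have h6 : c i = 2 := by omega
        rw [h6] at h2
        have h7 : n = 2 := by
          have : n < 3 := by
            by_contra hcon
            push Not at hcon
            have := Nat.mul_le_mul hcon (by omega : 4 ≤ n + 1)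
            omega
          omega
        exact ⟨by omega, Or.inr ⟨hQ, h7, by omega⟩⟩
  · right
    push Not at huniq
    obtain ⟨j, hji⟩ := huniq
    have hij : i ≠ j := Ne.symm hji
    set s := ∑ k, c k with hsdef
    have hsi : s = c i + ∑ k ∈ Finset.univ.erase i, c k :=
      (Finset.add_sum_erase _ _ (Finset.mem_univ i)).symm
    have hsj : ∑ k ∈ Finset.univ.erase i, c k =
        c j + ∑ k ∈ (Finset.univ.erase i).erase j, c k :=
      (Finset.add_sum_erase _ _ (Finset.mem_erase.2 ⟨hji, Finset.mem_univ j⟩)).symm
    have hci := hc i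
    have hcj := hc j
    set A := ∑ k ∈ Finset.univ.erase i, c k with hA
    have hsq : ∑ k, c k * c k ≤ c i * c i + A * A := by
      rw [← Finset.add_sum_erase _ (fun k => c k * c k) (Finset.mem_univ i)]
      exact Nat.add_le_add_left (sq_sum _ _) _
    have hA1 : 1 ≤ A := by omega
    have hbound : n * (n + 1) ≤ n * n + 2 := by
      calc n * (n + 1) ≤ ∑ k, r k := hN
        _ ≤ ∑ k, (c k * c k + 2 * c k) := by
            apply Finset.sum_le_sum
            intro k _
            have := hr' k
            nlinarith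
        _ = ∑ k, c k * c k + 2 * s := by rw [Finset.sum_add_distrib, ← Finset.mul_sum]
        _ ≤ c i * c i + A * A + 2 * (c i + A) := by omega
        _ ≤ (c i + A) * (c i + A) + 2 := sq_aux _ _ hci hA1
        _ ≤ n * n + 2 := by
            have hle : c i + A ≤ n := by omega
            exact Nat.add_le_add_right (Nat.mul_le_mul hle hle) _
    have hn2 : n ≤ 2 := by nlinarith
    have hn3 : n = 2 := by omega
    have hci1 : c i = 1 := by omega
    have hcj1 : c j = 1 := by omega
    have hrest : ∑ k ∈ (Finset.univ.erase i).erase j, c k = 0 := by omega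
    have hall : ∀ k, k = i ∨ k = j := by
      intro k
      by_contra hcon
      rw [not_or] at hcon
      have h1 : k ∈ (Finset.univ.erase i).erase j :=
        Finset.mem_erase.2 ⟨hcon.2, Finset.mem_erase.2 ⟨hcon.1, Finset.mem_univ k⟩⟩
      have h2 := Finset.sum_eq_zero_iff.1 hrest k h1
      have := hc k
      omega
    have huniv : (Finset.univ : Finset I) = {i, j} := by
      ext k
      simp [hall k]
    rw [huniv, Finset.sum_pair hij, hn3] at hN
    have hri := hr' i
    have hrj := hr' j
    rw [hci1] at hri
    rw [hcj1] at hrj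
    have hri3 : r i = 3 := by omega
    have hrj3 : r j = 3 := by omega
    have hQ : ∀ k, c k = 1 → r k = 3 → Q k 0 1 := by
      intro k h1 h2
      rcases hr k with h | ⟨m, f, hQ, hf, h3, h4⟩
      · rw [h1, h2] at h
        omega
      · rw [h1] at h3
        have h5 : m + 1 = 1 ∧ f = 1 := by
          have := Nat.eq_one_of_mul_eq_one_right h3.symm
          have h6 := Nat.eq_one_of_mul_eq_one_left h3.symm
          exact ⟨this, h6⟩
        have hm : m = 0 := by omega
        rw [hm, h5.2] at hQ
        exact hQ
    exact ⟨hn3, i, j, hij, hall, hQ i hci1 hri3, hQ j hcj1 hrj3, hci1, hcj1, hri3, hrj3⟩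

end Pool.Agent.H36.KGR
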