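import Pool.Agent.H77.KG.Targets

set_option autoImplicit false

namespace Pool.Agent.H36.KGR

open Set Pool.Agent.H77.BC Pool.Agent.H77.BD Pool.Agent.H77.KG

private theorem mulq {M : Type} (U : RU M) {Γ Q : Type} [Group Γ] [Group Q] [Cod M Γ] [Cod M Q]
    [DG U Γ] [Ful U Q] (π : Γ →* Q) (hs : Function.Surjective π) (hq : DFn U (fun g => π g)) :
    DG U Q := by
  refine ⟨?_⟩
  have h1 : U.D {z : (Q × Q) × Q | ∃ g : Γ, ∃ h : Γ, π g = z.1.1 ∧ π h = z.1.2 ∧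
      π (g * h) = z.2} := by
    apply D_exists (p := fun (z : (Q × Q) × Q) (g : Γ) => ∃ h : Γ, π g = z.1.1 ∧ π h = z.1.2 ∧
      π (g * h) = z.2)
    apply D_exists (p := fun (w : ((Q × Q) × Q) × Γ) (h : Γ) => π w.2 = w.1.1.1 ∧
      π h = w.1.1.2 ∧ π (w.2 * h) = w.1.2)
    refine D_and (D_eqf ?_ ?_) (D_and (D_eqf ?_ ?_) (D_eqf ?_ ?_))
    · exact DFn_comp (g := fun g => π g) hq (DFn_comp (g := Prod.snd) DFn_snd DFn_fst)
    · exact DFn_comp (g := Prod.fst) DFn_fst (DFn_comp (g := Prod.fst) DFn_fst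
        (DFn_comp (g := Prod.fst) DFn_fst DFn_fst))
    · exact DFn_comp (g := fun g => π g) hq DFn_snd
    · exact DFn_comp (g := Prod.snd) DFn_snd (DFn_comp (g := Prod.fst) DFn_fst
        (DFn_comp (g := Prod.fst) DFn_fst DFn_fst))
    · exact DFn_comp (g := fun g => π g) hq
        (DFn_gmul (DFn_comp (g := Prod.snd) DFn_snd DFn_fst) DFn_snd)
    · exact DFn_comp (g := Prod.snd) DFn_snd (DFn_comp (g := Prod.fst) DFn_fst DFn_fst)
  have h2 : {p : (Q × Q) × Q | p.2 = p.1.1 * p.1.2} = {z : (Q × Q) × Q | ∃ g : Γ, ∃ h : Γ,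
      π g = z.1.1 ∧ π h = z.1.2 ∧ π (g * h) = z.2} := by
    ext z
    constructor
    · intro hz
      have hz' : z.2 = z.1.1 * z.1.2 := hz
      obtain ⟨g, hg⟩ := hs z.1.1
      obtain ⟨h, hh⟩ := hs z.1.2
      exact ⟨g, h, hg, hh, by rw [map_mul, hg, hh, hz']⟩
    · rintro ⟨g, h, hg, hh, hgh⟩
      change z.2 = z.1.1 * z.1.2
      rw [← hg, ← hh, ← hgh, map_mul]
  unfold DFn
  rw [h2]
  exact h1

theorem pf_QGP (hQTY : T_QTY) (hEXA : T_EXA) (hEXB : T_EXB) : T_QGP := by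
  intro C hC M U hU Γ _ _ _ K _ hK
  have hE : U.D {z : Γ × Γ | (QuotientGroup.leftRel K).r z.1 z.2} := by
    have h1 : U.D {z : Γ × Γ | z.1⁻¹ * z.2 ∈ K} :=
      D_subst (p := fun x => x ∈ K) hK (f := fun z : Γ × Γ => z.1⁻¹ * z.2)
        (DFn_gmul (DFn_ginv DFn_fst) DFn_snd)
    have e : {z : Γ × Γ | (QuotientGroup.leftRel K).r z.1 z.2} =
        {z : Γ × Γ | z.1⁻¹ * z.2 ∈ K} := by
      ext z
      exact QuotientGroup.leftRel_apply
    rw [e]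
    exact h1
  obtain ⟨M', U', e, h, c, hC', hful, hq⟩ := hQTY C hC U hU (QuotientGroup.leftRel K) hE
  refine ⟨M', U', e, h, c, hC', ?_, hq⟩
  have hDG : @DG M' U' Γ _ (codE h.inj) := (hEXB U U' e h).2.2.1
  let cQ : Cod M' (Γ ⧸ K) := c
  let cΓ : Cod M' Γ := codE h.inj
  have hF : Ful U' (Γ ⧸ K) := hful
  have : DG U' Γ := hDG
  exact mulq U' (QuotientGroup.mk' K) (QuotientGroup.mk'_surjective K) hq

end Pool.Agent.H36.KGR
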