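import Pool.Agent.H77.KG.Targets
import Pool.Agent.H16.BCT.POS

set_option autoImplicit false
set_option linter.unusedSectionVars false

namespace Pool.Agent.H36.KGR

open Set Matrix Pool.Agent.H77.BC Pool.Agent.H77.BD Pool.Agent.H77.KG

section roots

variable {l : ℕ} {C : Matrix (Fin l) (Fin l) ℤ}

private theorem ht_add (v w : Fin l → ℤ) : ht (v + w) = ht v + ht w := by
  unfold ht
  rw [← Finset.sum_add_distrib]
  rfl

private theorem ht_si (i : Fin l) : ht (si i : Fin l → ℤ) = 1 := by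
  unfold ht si
  rw [Finset.sum_pi_single']
  simp

private theorem ht_pos {γ : Root C} (h : IsPos γ) : 1 ≤ ht γ.1 := by
  have h0 : γ.1 ≠ 0 := root_ne_zero γ
  obtain ⟨i, hi⟩ := Function.ne_iff.1 h0
  have h1 : 1 ≤ γ.1 i := by
    have := h i
    rw [Pi.zero_apply] at hi
    omega
  exact h1.trans (Finset.single_le_sum (fun j _ => h j) (Finset.mem_univ i))

/-- dominant roots -/
private def Dom (C : Matrix (Fin l) (Fin l) ℤ) (γ : Fin l → ℤ) : Prop := ∀ i, 0 ≤ ip C γ (si i)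

private theorem dom_full (hC : Cartan C) {γ : Root C} (hp : IsPos γ) (hd : Dom C γ.1) (j : Fin l) :
    0 < γ.1 j := by
  by_contra hj
  have hj0 : γ.1 j = 0 := le_antisymm (not_lt.1 hj) (hp j)
  have hs : {i | 0 < γ.1 i}.Nonempty := by
    obtain ⟨i, hi⟩ := Function.ne_iff.1 (root_ne_zero γ)
    refine ⟨i, ?_⟩
    have := hp i
    rw [Pi.zero_apply] at hi
    change 0 < γ.1 i
    omega
  obtain ⟨i, hi, k, hk, hik⟩ := hC.conn {i | 0 < γ.1 i} hs ⟨j, hj⟩
  have hi' : 0 < γ.1 i := hi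
  have hk' : ¬ 0 < γ.1 k := hk
  have hk0 : γ.1 k = 0 := le_antisymm (not_lt.1 hk') (hp k)
  have hne : i ≠ k := by
    intro h
    rw [h] at hi'
    exact hk' hi'
  have hC1 : C i k = -1 := (hC.off i k hne).resolve_left hik
  have h1 := hd k
  rw [ip_si_right] at h1
  have h2 : ∑ m, γ.1 m * C m k ≤ γ.1 i * C i k := by
    rw [← Finset.add_sum_erase _ _ (Finset.mem_univ i)]
    have h3 : ∑ m ∈ Finset.univ.erase i, γ.1 m * C m k ≤ 0 := by
      refine Finset.sum_nonpos fun m _ => ?_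
      by_cases hm : m = k
      · rw [hm, hk0, zero_mul]
      · have h4 := hp m
        rcases hC.off m k hm with h5 | h5
        · rw [h5, mul_zero]
        · rw [h5]
          omega
    linarith
  rw [hC1] at h2
  omega

private theorem dom_unique (hC : Cartan C) {γ δ : Root C} (hγ : IsPos γ) (hδ : IsPos δ)
    (dγ : Dom C γ.1) (dδ : Dom C δ.1) : γ = δ := by
  by_contra hne
  have h1 : 0 < ip C γ.1 δ.1 := by
    rw [ip_comm hC, ip_eq_sum_right]
    have h2 : ∃ i, 0 < ip C δ.1 (si i) := by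
      by_contra hcon
      push Not at hcon
      have h3 : ip C δ.1 δ.1 = 2 := δ.2
      rw [ip_eq_sum_right] at h3
      have h4 : ∑ j, δ.1 j * ip C δ.1 (si j) = 0 := by
        refine Finset.sum_eq_zero fun j _ => ?_
        have h5 : ip C δ.1 (si j) = 0 := le_antisymm (hcon j) (dδ j)
        rw [h5, mul_zero]
      omega
    obtain ⟨i, hi⟩ := h2
    refine Finset.sum_pos' (fun j _ => mul_nonneg (hγ j) (dδ j)) ⟨i, Finset.mem_univ i, ?_⟩
    exact mul_pos (dom_full hC hγ dγ i) hi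
  have h2 := ip_le_one hC γ δ hne
  have h3 : ip C γ.1 δ.1 = 1 := by omega
  have h4 : ip C δ.1 γ.1 = 1 := by rw [ip_comm hC, h3]
  rcases Pool.Agent.H16.BCT.pos_or_neg hC (sb hC δ γ h4) with hp | hn
  · have h5 : 0 ≤ ip C γ.1 (δ.1 - γ.1) := by
      rw [ip_eq_sum_right]
      exact Finset.sum_nonneg fun j _ => mul_nonneg (hp j) (dγ j)
    rw [ip_sub_right, h3, γ.2] at h5
    omega
  · have h5 : ip C δ.1 (δ.1 - γ.1) ≤ 0 := by
      rw [ip_eq_sum_right]
      exact Finset.sum_nonpos fun j _ => mul_nonpos_of_nonpos_of_nonneg (hn j) (dδ j)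
    rw [ip_sub_right, h4, δ.2] at h5
    omega

private theorem max_dom (hC : Cartan C) {δ : Root C} (hδ : IsPos δ)
    (hmax : ∀ η : Root C, ht η.1 ≤ ht δ.1) : Dom C δ.1 := by
  intro i
  by_contra hneg
  have h1 : ip C δ.1 (sr hC i).1 < 0 := not_le.1 hneg
  have h2 : (sr hC i).1 ≠ -δ.1 := by
    intro h
    have h3 := hδ i
    have h4 := congrFun h i
    rw [sr_val, Pi.neg_apply] at h4
    unfold si at h4
    rw [Pi.single_eq_same] at h4
    omega
  have h3 := neg_one_le_ip hC δ (sr hC i) h2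
  have h4 : ip C δ.1 (sr hC i).1 = -1 := by omega
  have h5 := hmax (ad hC δ (sr hC i) h4)
  change ht (δ.1 + si i) ≤ ht δ.1 at h5
  rw [ht_add, ht_si] at h5
  omega

private theorem dom_max (hC : Cartan C) {γ δ : Root C} (hγ : IsPos γ) (hδ : IsPos δ)
    (dγ : Dom C γ.1) (hle : ht γ.1 ≤ ht δ.1) : δ = γ := by
  have hfin := finRoot hC
  have hne : Nonempty (Root C) := ⟨γ⟩
  obtain ⟨μ, hμ⟩ := Finite.exists_max (fun η : Root C => ht η.1)
  have h1 : IsPos μ := by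
    rcases Pool.Agent.H16.BCT.pos_or_neg hC μ with h | h
    · exact h
    · exfalso
      have h2 : ht μ.1 ≤ 0 := Finset.sum_nonpos fun i _ => h i
      have h3 := ht_pos hγ
      have h4 := hμ γ
      omega
  have h2 := dom_unique hC h1 hγ (max_dom hC h1 hμ) dγ
  have h3 : Dom C δ.1 := by
    refine max_dom hC hδ fun η => ?_
    have := hμ η
    rw [h2] at this
    omega
  exact dom_unique hC hδ hγ h3 dγ

end roots

section groups

variable {l : ℕ} {C : Matrix (Fin l) (Fin l) ℤ} {F Γ : Type} [Field F] [Group Γ]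
  {x : Root C → F → Γ} {τ : (Fin l → Fˣ) →* Γ}

private theorem x_zero (h : CD x τ) (β : Root C) : x β 0 = 1 := by
  have h1 := h.add β 0 0
  rw [add_zero] at h1
  exact left_eq_mul.1 h1

private theorem x_inv (h : CD x τ) (β : Root C) (t : F) : (x β t)⁻¹ = x β (-t) := by
  rw [inv_eq_iff_mul_eq_one, ← h.add, add_neg_cancel, x_zero h]

private theorem gen_mem {p : Root C → Prop} {β : Root C} (hp : p β) (t : F) : x β t ∈ Ug x p :=
  Subgroup.subset_closure ⟨β, t, hp, rfl⟩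

private theorem Ug_mono {p q : Root C → Prop} (hpq : ∀ β, p β → q β) : Ug x p ≤ Ug x q := by
  refine (Subgroup.closure_le _).2 ?_
  rintro _ ⟨β, t, hβ, rfl⟩
  exact gen_mem (hpq β hβ) t

private theorem conj_gen (hC : Cartan C) (h : CD x τ) (β δ : Root C) (hne : δ.1 ≠ -β.1)
    (s t : F) : x β s * x δ t * (x β s)⁻¹ = x δ t ∨ ∃ (ε : Root C) (r : F),
      ε.1 = β.1 + δ.1 ∧ x β s * x δ t * (x β s)⁻¹ = x ε r * x δ t := by
  by_cases h0 : 0 ≤ ip C β.1 δ.1
  · left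
    rw [h.cmm β δ h0, mul_inv_cancel_right]
  · right
    have h1 := neg_one_le_ip hC β δ hne
    have h2 : ip C β.1 δ.1 = -1 := by omega
    refine ⟨ad hC β δ h2, (eps C β.1 δ.1 : F) * s * t, rfl, ?_⟩
    rw [h.com β δ (ad hC β δ h2) rfl, ← mul_assoc, mul_inv_cancel_right]

private theorem norm_Ug (hC : Cartan C) (h : CD x τ) (p q : Root C → Prop)
    (hq : ∀ β δ ε : Root C, p β → q δ → ε.1 = β.1 + δ.1 → q ε)
    (hne : ∀ β δ : Root C, p β → q δ → δ.1 ≠ -β.1) :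
    ∀ u ∈ Ug x p, ∀ v ∈ Ug x q, u * v * u⁻¹ ∈ Ug x q := by
  have hg : ∀ (β : Root C) (s : F), p β → ∀ v ∈ Ug x q, x β s * v * (x β s)⁻¹ ∈ Ug x q := by
    intro β s hβ v hv
    have h1 : Ug x q ≤ (Ug x q).comap (MulAut.conj (x β s)).toMonoidHom := by
      refine (Subgroup.closure_le _).2 ?_
      rintro _ ⟨δ, t, hδ, rfl⟩
      change x β s * x δ t * (x β s)⁻¹ ∈ Ug x q
      rcases conj_gen hC h β δ (hne β δ hβ hδ) s t with h2 | ⟨ε, r, hε, h2⟩
      · rw [h2]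
        exact gen_mem hδ t
      · rw [h2]
        exact mul_mem (gen_mem (hq β δ ε hβ hδ hε) r) (gen_mem hδ t)
    exact h1 hv
  let N : Subgroup Γ :=
    { carrier := {g | (∀ v ∈ Ug x q, g * v * g⁻¹ ∈ Ug x q) ∧ ∀ v ∈ Ug x q, g⁻¹ * v * g ∈ Ug x q}
      one_mem' := by
        refine ⟨fun v hv => ?_, fun v hv => ?_⟩
        · rw [one_mul, inv_one, mul_one]
          exact hv
        · rw [mul_one, inv_one, one_mul]
          exact hv
      mul_mem' := by
        rintro a b ⟨ha, ha'⟩ ⟨hb, hb'⟩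
        refine ⟨fun v hv => ?_, fun v hv => ?_⟩
        · have := ha _ (hb v hv)
          rw [_root_.mul_inv_rev]
          simpa only [mul_assoc] using this
        · have := hb' _ (ha' v hv)
          rw [_root_.mul_inv_rev]
          simpa only [mul_assoc] using this
      inv_mem' := by
        rintro a ⟨ha, ha'⟩
        refine ⟨fun v hv => ?_, fun v hv => ?_⟩
        · rw [inv_inv]
          exact ha' v hv
        · rw [inv_inv]
          exact ha v hv }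
  have hle : Ug x p ≤ N := by
    refine (Subgroup.closure_le _).2 ?_
    rintro _ ⟨β, s, hβ, rfl⟩
    refine ⟨hg β s hβ, fun v hv => ?_⟩
    have := hg β (-s) hβ v hv
    rw [← x_inv h, inv_inv] at this
    exact this
  intro u hu v hv
  exact (hle hu).1 v hv

private theorem comm_Ug (hC : Cartan C) (h : CD x τ) (β : Root C) (s : F) (q r : Root C → Prop)
    (hr : ∀ α δ ε : Root C, q α → r δ → ε.1 = α.1 + δ.1 → r ε)
    (hne : ∀ α δ : Root C, q α → r δ → δ.1 ≠ -α.1)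
    (hqr : ∀ δ ε : Root C, q δ → ε.1 = β.1 + δ.1 → r ε) (hne' : ∀ δ : Root C, q δ → δ.1 ≠ -β.1) :
    ∀ u ∈ Ug x q, x β s * u * (x β s)⁻¹ * u⁻¹ ∈ Ug x r := by
  have hn := norm_Ug hC h q r hr hne
  intro u hu
  refine Subgroup.closure_induction (p := fun u _ => x β s * u * (x β s)⁻¹ * u⁻¹ ∈ Ug x r)
    ?_ ?_ ?_ ?_ hu
  · rintro _ ⟨δ, t, hδ, rfl⟩
    rcases conj_gen hC h β δ (hne' δ hδ) s t with h2 | ⟨ε, c, hε, h2⟩
    · rw [h2, mul_inv_cancel]
      exact one_mem _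
    · rw [h2, mul_inv_cancel_right]
      exact gen_mem (hqr δ ε hδ hε) c
  · rw [mul_one, mul_inv_cancel, inv_one, mul_one]
    exact one_mem _
  · intro a b ha hb iha ihb
    have h1 : x β s * (a * b) * (x β s)⁻¹ * (a * b)⁻¹ =
        (x β s * a * (x β s)⁻¹ * a⁻¹) * (a * (x β s * b * (x β s)⁻¹ * b⁻¹) * a⁻¹) := by
      group
    rw [h1]
    exact mul_mem iha (hn a ha _ ihb)
  · intro a ha iha
    have h1 : x β s * a⁻¹ * (x β s)⁻¹ * a⁻¹⁻¹ =
        a⁻¹ * (x β s * a * (x β s)⁻¹ * a⁻¹)⁻¹ * a⁻¹⁻¹ := by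
      group
    rw [h1]
    exact hn _ (inv_mem ha) _ (inv_mem iha)

private theorem split_Ug (h : CD x τ) (γ : Root C) (q : Root C → Prop)
    (hn : ∀ t : F, ∀ v ∈ Ug x q, x γ t * v * (x γ t)⁻¹ ∈ Ug x q) :
    ∀ u ∈ Ug x (fun δ => δ = γ ∨ q δ), ∃ t : F, ∃ v ∈ Ug x q, u = x γ t * v := by
  intro u hu
  refine Subgroup.closure_induction (p := fun u _ => ∃ t : F, ∃ v ∈ Ug x q, u = x γ t * v)
    ?_ ?_ ?_ ?_ hu
  · rintro _ ⟨δ, t, hδ | hδ, rfl⟩
    · exact ⟨t, 1, one_mem _, by rw [hδ, mul_one]⟩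
    · exact ⟨0, x δ t, gen_mem hδ t, by rw [x_zero h, one_mul]⟩
  · exact ⟨0, 1, one_mem _, by rw [x_zero h, one_mul]⟩
  · rintro a b _ _ ⟨t, v, hv, rfl⟩ ⟨s, w, hw, rfl⟩
    refine ⟨t + s, x γ (-s) * v * (x γ (-s))⁻¹ * w, mul_mem (hn _ v hv) hw, ?_⟩
    rw [h.add, ← x_inv h]
    group
  · rintro a _ ⟨t, v, hv, rfl⟩
    refine ⟨-t, x γ t * v⁻¹ * (x γ t)⁻¹, hn _ _ (inv_mem hv), ?_⟩
    rw [← x_inv h]
    group

end groups

theorem pf_SIU (hUNQ : T_UNQ) (hSIR : T_SIR) : T_SIU := by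
  classical
  intro l C hC hl F Γ _ _ _ x τ h X hX u0 hu0 hu0X hu01
  have hfin := finRoot hC
  have hadd : ∀ β δ ε : Root C, ε.1 = β.1 + δ.1 → IsPos β → IsPos δ → IsPos ε := by
    intro β δ ε hε hβ hδ i
    rw [hε, Pi.add_apply]
    exact add_nonneg (hβ i) (hδ i)
  have hnn : ∀ β δ : Root C, IsPos β → IsPos δ → δ.1 ≠ -β.1 := by
    intro β δ hβ hδ hh
    have h1 := ht_pos hβ
    have h2 := ht_pos hδ
    have h3 : ht (δ.1 + β.1) = 0 := by
      rw [hh, neg_add_cancel]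
      unfold ht
      simp
    rw [ht_add] at h3
    omega
  -- a minimal set
  let P : Set (Root C) → Prop := fun S => (∀ δ ∈ S, IsPos δ) ∧
    (∀ δ δ' : Root C, δ ∈ S → IsPos δ' → ht δ.1 < ht δ'.1 → δ' ∈ S) ∧
    ∃ u ∈ Ug x (fun δ => δ ∈ S), u ∈ X ∧ u ≠ 1
  have hP0 : P {δ | IsPos δ} :=
    ⟨fun δ hδ => hδ, fun δ δ' _ hδ' _ => hδ', u0, hu0, hu0X, hu01⟩
  obtain ⟨S, hS, hmin⟩ : ∃ S, P S ∧ ∀ S', P S' → S.ncard ≤ S'.ncard := by
    obtain ⟨S, hS, hmin⟩ := WellFounded.has_min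
      (measure (fun S : Set (Root C) => S.ncard)).wf {S | P S} ⟨_, hP0⟩
    exact ⟨S, hS, fun S' hS' => not_lt.1 (hmin S' hS')⟩
  obtain ⟨hpos, hup, u, hu, huX, hu1⟩ := hS
  have hsmall : ∀ S' : Set (Root C), S' ⊆ S → (∃ γ ∈ S, γ ∉ S') →
      (∀ δ δ' : Root C, δ ∈ S' → IsPos δ' → ht δ.1 < ht δ'.1 → δ' ∈ S') →
      ∀ v ∈ Ug x (fun δ => δ ∈ S'), v ∈ X → v = 1 := by
    intro S' hsub ⟨γ, hγ, hγ'⟩ hup' v hv hvX
    by_contra hv1
    have h1 := hmin S' ⟨fun δ hδ => hpos δ (hsub hδ), hup', v, hv, hvX, hv1⟩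
    have h2 : S'.ncard < S.ncard := Set.ncard_lt_ncard
      ⟨hsub, fun hh => hγ' (hh hγ)⟩ (Set.toFinite S)
    omega
  have hSne : S.Nonempty := by
    rw [Set.nonempty_iff_ne_empty]
    intro he
    apply hu1
    have h1 : Ug x (fun δ => δ ∈ S) ≤ ⊥ := by
      refine (Subgroup.closure_le _).2 ?_
      rintro _ ⟨β, t, hβ, rfl⟩
      rw [he] at hβ
      exact absurd hβ (Set.notMem_empty β)
    exact Subgroup.mem_bot.1 (h1 hu)
  obtain ⟨γ, hγS, hγmin⟩ := Set.exists_min_image S (fun δ => ht δ.1) (Set.toFinite S) hSne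
  have hγpos := hpos γ hγS
  -- the decomposition of u
  let q : Root C → Prop := fun δ => δ ∈ S ∧ δ ≠ γ
  have hsplit : ∃ t : F, ∃ v ∈ Ug x q, u = x γ t * v := by
    have hle : Ug x (fun δ => δ ∈ S) ≤ Ug x (fun δ => δ = γ ∨ q δ) := by
      refine Ug_mono (fun β hβ => ?_)
      by_cases hβγ : β = γ
      · exact Or.inl hβγ
      · exact Or.inr ⟨hβ, hβγ⟩
    refine split_Ug h γ q (fun t v hv => ?_) u (hle hu)
    · have hγm : x γ t ∈ Ug x (fun δ => δ = γ) := Subgroup.subset_closure ⟨γ, t, rfl, rfl⟩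
      refine norm_Ug hC h (fun δ => δ = γ) q ?_ ?_ (x γ t) hγm v hv
      · rintro β δ ε hβ ⟨hδ, hδγ⟩ hε
        subst hβ
        have h1 : ht ε.1 = ht β.1 + ht δ.1 := by rw [hε, ht_add]
        have h2 := ht_pos hγpos
        have h3 := ht_pos (hpos δ hδ)
        refine ⟨hup δ ε hδ (hadd β δ ε hε hγpos (hpos δ hδ)) (by omega), ?_⟩
        intro hh
        rw [hh] at h1
        omega
      · rintro β δ hβ ⟨hδ, hδγ⟩
        subst hβ
        exact hnn β δ hγpos (hpos δ hδ)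
  obtain ⟨t, v, hv, huv⟩ := hsplit
  have hqup : ∀ δ δ' : Root C, q δ → IsPos δ' → ht δ.1 < ht δ'.1 → q δ' := by
    rintro δ δ' ⟨hδ, hδγ⟩ hδ' hlt
    refine ⟨hup δ δ' hδ hδ' hlt, ?_⟩
    intro hh
    rw [hh] at hlt
    have := hγmin δ hδ
    omega
  have ht0 : t ≠ 0 := by
    intro h0
    rw [h0, x_zero h, one_mul] at huv
    apply hu1
    refine hsmall {δ | q δ} (fun δ hδ => hδ.1) ⟨γ, hγS, fun hh => hh.2 rfl⟩ hqup u ?_ huX
    rw [huv]
    exact hv
  -- dominance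
  have hdom : Dom C γ.1 := by
    intro i
    by_contra hneg
    have h1 : ip C γ.1 (sr hC i).1 < 0 := not_le.1 hneg
    have hβpos : IsPos (sr hC i) := by
      intro j
      change 0 ≤ (Pi.single i 1 : Fin l → ℤ) j
      rw [Pi.single_apply]
      split_ifs <;> norm_num
    have h2 := neg_one_le_ip hC γ (sr hC i) (hnn _ _ hγpos hβpos)
    have h3 : ip C γ.1 (sr hC i).1 = -1 := by omega
    have h4 : ip C (sr hC i).1 γ.1 = -1 := by rw [ip_comm hC, h3]
    set β := sr hC i with hβ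
    set ε := ad hC β γ h4 with hε
    have hεv : ε.1 = β.1 + γ.1 := rfl
    have hhtβ : ht β.1 = 1 := ht_si i
    have hhtε : ht ε.1 = ht γ.1 + 1 := by rw [hεv, ht_add, hhtβ, add_comm]
    -- the commutator
    let T : Root C → Prop := fun δ => IsPos δ ∧ ht γ.1 + 1 ≤ ht δ.1
    have hTS : ∀ δ, T δ → δ ∈ S := fun δ hδ => hup γ δ hγS hδ.1 (by have := hδ.2; omega)
    have hw : x β 1 * u * (x β 1)⁻¹ * u⁻¹ ∈ Ug x T := by
      refine comm_Ug hC h β 1 (fun δ => δ ∈ S) T ?_ ?_ ?_ ?_ u hu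
      · rintro α δ η hα ⟨hδ, hδ'⟩ hη
        refine ⟨hadd α δ η hη (hpos α hα) hδ, ?_⟩
        have h5 := ht_pos (hpos α hα)
        rw [hη, ht_add]
        omega
      · rintro α δ hα ⟨hδ, hδ'⟩
        exact hnn α δ (hpos α hα) hδ
      · intro δ η hδ hη
        refine ⟨hadd β δ η hη hβpos (hpos δ hδ), ?_⟩
        have h5 := hγmin δ hδ
        rw [hη, ht_add, hhtβ]
        omega
      · intro δ hδ
        exact hnn β δ hβpos (hpos δ hδ)
    have hwX : x β 1 * u * (x β 1)⁻¹ * u⁻¹ ∈ X :=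
      mul_mem (hX.conj_mem u huX (x β 1)) (inv_mem huX)
    have hw1 : x β 1 * u * (x β 1)⁻¹ * u⁻¹ = 1 := by
      refine hsmall {δ | T δ} (fun δ hδ => hTS δ hδ) ⟨γ, hγS, ?_⟩ ?_ _ hw hwX
      · rintro ⟨-, hh⟩
        omega
      · rintro δ δ' ⟨hδ, hδ'⟩ hp hlt
        exact ⟨hp, by omega⟩
    have hcomm : x β 1 * u = u * x β 1 := by
      have h5 := mul_inv_eq_one.1 hw1
      exact mul_inv_eq_iff_eq_mul.1 h5
    -- the second commutator
    let V : Root C → Prop := fun δ => IsPos δ ∧ ht ε.1 ≤ ht δ.1 ∧ δ ≠ ε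
    have hVn : ∀ α δ η : Root C, IsPos α → V δ → η.1 = α.1 + δ.1 → V η := by
      rintro α δ η hα ⟨hδ, hδ', hδε⟩ hη
      have h5 := ht_pos hα
      have h6 : ht η.1 = ht α.1 + ht δ.1 := by rw [hη, ht_add]
      refine ⟨hadd α δ η hη hα hδ, by omega, ?_⟩
      intro hh
      rw [hh] at h6
      omega
    have hw' : x β 1 * v * (x β 1)⁻¹ * v⁻¹ ∈ Ug x V := by
      refine comm_Ug hC h β 1 q V ?_ ?_ ?_ ?_ v hv
      · rintro α δ η ⟨hα, -⟩ hδ hη
        exact hVn α δ η (hpos α hα) hδ hη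
      · rintro α δ ⟨hα, -⟩ ⟨hδ, -⟩
        exact hnn α δ (hpos α hα) hδ
      · rintro δ η ⟨hδ, hδγ⟩ hη
        have h5 := hγmin δ hδ
        refine ⟨hadd β δ η hη hβpos (hpos δ hδ), ?_, ?_⟩
        · rw [hη, ht_add, hhtβ, hhtε]
          omega
        · intro hh
          rw [hh, hεv] at hη
          exact hδγ (Subtype.ext (add_left_cancel hη).symm)
      · rintro δ ⟨hδ, -⟩
        exact hnn β δ hβpos (hpos δ hδ)
    set w' := x β 1 * v * (x β 1)⁻¹ * v⁻¹ with hw'def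
    have hc := h.com β γ ε hεv 1 t
    set r : F := (eps C β.1 γ.1 : F) * 1 * t with hr
    have h5 : x ε r = x γ t * w'⁻¹ * (x γ t)⁻¹ := by
      rw [huv] at hcomm
      have h6 : x β 1 * v = w' * v * x β 1 := by
        rw [hw'def]
        group
      have h7 : x ε r * (x γ t * x β 1) * v = x γ t * v * x β 1 := by
        rw [← hc, mul_assoc, hcomm]
      have h8 : x ε r * x γ t * w' * (v * x β 1) = x γ t * (v * x β 1) := by
        calc x ε r * x γ t * w' * (v * x β 1) = x ε r * x γ t * (w' * v * x β 1) := by group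
          _ = x ε r * x γ t * (x β 1 * v) := by rw [h6]
          _ = x ε r * (x γ t * x β 1) * v := by group
          _ = x γ t * v * x β 1 := h7
          _ = x γ t * (v * x β 1) := by group
      have h9 := mul_right_cancel h8
      rw [eq_mul_inv_iff_mul_eq, eq_mul_inv_iff_mul_eq]
      exact h9
    have h6 : x ε r ∈ Ug x V := by
      rw [h5]
      have hγm : x γ t ∈ Ug x IsPos := Subgroup.subset_closure ⟨γ, t, hγpos, rfl⟩
      exact norm_Ug hC h IsPos V (fun α δ η hα hδ hη => hVn α δ η hα hδ hη)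
        (fun α δ hα hδ => hnn α δ hα hδ.1) (x γ t) hγm _ (inv_mem hw')
    have h7 : r = 0 := hUNQ hC h ε r (hadd β γ ε hεv hβpos hγpos) h6
    rw [hr, mul_one] at h7
    rcases mul_eq_zero.1 h7 with h8 | h8
    · exact eps_ne_zero_F (F := F) β.1 γ.1 h8
    · exact ht0 h8
  -- conclusion
  have hv1 : v = 1 := by
    have h1 : Ug x q ≤ ⊥ := by
      refine (Subgroup.closure_le _).2 ?_
      rintro _ ⟨δ, s, ⟨hδ, hδγ⟩, rfl⟩
      exact absurd (dom_max hC hγpos (hpos δ hδ) hdom (hγmin δ hδ)) hδγ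
    exact Subgroup.mem_bot.1 (h1 hv)
  rw [hv1, mul_one] at huv
  exact hSIR hC hl h X hX γ t ht0 (huv ▸ huX)

end Pool.Agent.H36.KGR
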